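import Pool.Agent.Helper94.DG.Defs

/-!
The law of a corner, and the law of the planted triangle.
-/

set_option autoImplicit false

open Finset

namespace Pool.Agent.Helper14.DG

open Pool.Agent.Helper94.DG

private lemma ker_sum' {α : Type} [Fintype α] (δ : α → ℕ) (x : α) : ∑ x', ker δ x x' = 1 := by
  classical
  unfold ker
  rw [← Finset.sum_filter, Finset.sum_const, nsmul_eq_mul]
  have h1 : (univ.filter fun z => δ x = δ z) = univ.filter fun z => δ z = δ x := by
    ext z
    simp only [Finset.mem_filter, Finset.mem_univ, true_and]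
    exact eq_comm
  have h2 : (univ.filter fun z => δ z = δ x).Nonempty :=
    ⟨x, by simp only [Finset.mem_filter, Finset.mem_univ, true_and]⟩
  have h3 : ((univ.filter fun z => δ z = δ x).card : ℝ) ≠ 0 := by
    exact_mod_cast h2.card_pos.ne'
  convert mul_inv_cancel₀ h3 using 2
  rw [h1]

private lemma upd_same {m : ℕ} {α : Type} (X : Fin m → Fin m → α) (i j : Fin m) (z : α) :
    upd X i j z i j = z := by
  unfold upd
  rw [if_pos ⟨rfl, rfl⟩]

private lemma upd_upd {m : ℕ} {α : Type} (X : Fin m → Fin m → α) (i j : Fin m) (z : α) :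
    upd (upd X i j z) i j (X i j) = X := by
  funext u v
  unfold upd
  split_ifs with h
  · rw [h.1, h.2]
  · rfl

/-- The swap. -/
private lemma swap {m : ℕ} {α : Type} [Fintype α] (i j : Fin m)
    (f : (Fin m → Fin m → α) → α → ℝ) :
    ∑ X, ∑ z, f (upd X i j z) (X i j) = ∑ X, ∑ z, f X z := by
  rw [← Fintype.sum_prod_type', ← Fintype.sum_prod_type']
  let e : (Fin m → Fin m → α) × α ≃ (Fin m → Fin m → α) × α :=
    { toFun := fun p => (upd p.1 i j p.2, p.1 i j)
      invFun := fun p => (upd p.1 i j p.2, p.1 i j)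
      left_inv := fun p => Prod.ext (upd_upd p.1 i j p.2) (upd_same p.1 i j p.2)
      right_inv := fun p => Prod.ext (upd_upd p.1 i j p.2) (upd_same p.1 i j p.2) }
  exact Fintype.sum_equiv e _ _ fun p => rfl

/-- One side: the value that is drawn in the class is put in the array, or not. -/
private lemma side_sum {m : ℕ} {α : Type} [Fintype α] [DecidableEq α] (d : Bool) (i j : Fin m)
    (δ : α → ℕ) (G : α → (Fin m → Fin m → α) → ℝ) :
    ∑ X : Fin m → Fin m → α, ∑ z, ker δ (X i j) z * G (X i j) (if d then upd X i j z else X) =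
      ∑ X : Fin m → Fin m → α, ∑ x', kerd d δ x' (X i j) * G x' X := by
  cases d
  · refine Finset.sum_congr rfl fun X _ => ?_
    simp only [Bool.false_eq_true, if_false, kerd]
    rw [← Finset.sum_mul, ker_sum', one_mul]
    have h1 : ∀ x', (if x' = X i j then (1 : ℝ) else 0) * G x' X =
        if x' = X i j then G x' X else 0 := fun x' => by
      split_ifs
      · rw [one_mul]
      · rw [zero_mul]
    rw [Finset.sum_congr rfl fun x' _ => h1 x', Finset.sum_ite_eq', if_pos (Finset.mem_univ _)]
  · simp only [if_true, kerd]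
    have h1 := swap i j fun (X : Fin m → Fin m → α) x' => ker δ x' (X i j) * G x' X
    rw [← h1]
    refine Finset.sum_congr rfl fun X _ => Finset.sum_congr rfl fun z _ => ?_
    rw [upd_same]

/-- A value is put in the array. -/
private lemma put {m : ℕ} {α : Type} [Fintype α] [DecidableEq α] (i j : Fin m) (z₀ : α)
    (Φ : (Fin m → Fin m → α) → ℝ) :
    ∑ X : Fin m → Fin m → α, Φ (upd X i j z₀) =
      Fintype.card α * ∑ X : Fin m → Fin m → α, (if z₀ = X i j then 1 else 0) * Φ X := by
  have h1 := swap i j fun (X : Fin m → Fin m → α) (_ : α) => (if z₀ = X i j then 1 else 0) * Φ X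
  have h2 : ∀ X : Fin m → Fin m → α, ∑ z : α, (if z₀ = upd X i j z i j then 1 else 0) *
      Φ (upd X i j z) = Φ (upd X i j z₀) := by
    intro X
    have h3 : ∀ z : α, (if z₀ = upd X i j z i j then (1 : ℝ) else 0) * Φ (upd X i j z) =
        if z₀ = z then Φ (upd X i j z) else 0 := fun z => by
      rw [upd_same]
      split_ifs
      · rw [one_mul]
      · rw [zero_mul]
    rw [Finset.sum_congr rfl fun z _ => h3 z, Finset.sum_ite_eq, if_pos (Finset.mem_univ _)]
  have h4 : ∑ X : Fin m → Fin m → α, ∑ z : α, (if z₀ = upd X i j z i j then (1 : ℝ) else 0) *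
      Φ (upd X i j z) = ∑ X : Fin m → Fin m → α, Φ (upd X i j z₀) :=
    Finset.sum_congr rfl fun X _ => h2 X
  rw [← h4, h1, Finset.mul_sum]
  refine Finset.sum_congr rfl fun X _ => ?_
  rw [Finset.sum_const, Finset.card_univ, nsmul_eq_mul]

/-- The third side. -/
private lemma third {m : ℕ} {α : Type} [Fintype α] [DecidableEq α] (d : Bool) (i j : Fin m)
    (δ : α → ℕ) (s : α) (Φ : (Fin m → Fin m → α) → ℝ) :
    ∑ X : Fin m → Fin m → α, ∑ z, ker δ s z * Φ (upd X i j (if d then z else s)) =
      Fintype.card α * ∑ X : Fin m → Fin m → α, kerd d δ s (X i j) * Φ X := by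
  cases d
  · simp only [Bool.false_eq_true, if_false, kerd]
    rw [← put]
    refine Finset.sum_congr rfl fun X _ => ?_
    rw [← Finset.sum_mul, ker_sum', one_mul]
  · simp only [if_true, kerd]
    rw [Finset.sum_comm]
    simp only [← Finset.mul_sum, put]
    rw [Finset.mul_sum]
    have h1 : ∀ z : α, ker δ s z * (Fintype.card α * ∑ X : Fin m → Fin m → α,
        (if z = X i j then 1 else 0) * Φ X) = ∑ X : Fin m → Fin m → α,
        Fintype.card α * ((if z = X i j then ker δ s z else 0) * Φ X) := by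
      intro z
      rw [Finset.mul_sum, Finset.mul_sum]
      refine Finset.sum_congr rfl fun X _ => ?_
      split_ifs <;> ring
    rw [Finset.sum_congr rfl fun z _ => h1 z, Finset.sum_comm]
    refine Finset.sum_congr rfl fun X _ => ?_
    rw [← Finset.mul_sum, ← Finset.sum_mul, Finset.sum_ite_eq', if_pos (Finset.mem_univ _)]

/-- The law of a corner. -/
theorem law {m L : ℕ} (hm : 0 < m) (hL : 0 < L) (a b : Fin m → Fin m → Fin L → ℕ)
    (c : Fin m → Fin m → Fin (2 * L) → ℕ) (d : Fin 3 → Bool) (Ψ : Arr m L → ℝ) :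
    ∑ D : Data m L, mass a b c D * Ψ (corner d D) =
      (∑ S : Arr m L, densF d a b c S * Ψ S) / Fintype.card (Arr m L) := by
  set N : ℝ := (Fintype.card (Arr m L) : ℝ) with hN
  -- one triangle
  have key : ∀ i j k : Fin m, ∑ X : Fin m → Fin m → Fin L, ∑ Y : Fin m → Fin m → Fin L,
      ∑ W : Fin m → Fin m → Fin (2 * L), ∑ z₁ : Fin L, ∑ z₂ : Fin L, ∑ z₃ : Fin (2 * L),
        ker (a i j) (X i j) z₁ * ker (b j k) (Y j k) z₂ *
          ker (c i k) (add (X i j) (Y j k)) z₃ *
          Ψ (if d 0 then upd X i j z₁ else X, if d 1 then upd Y j k z₂ else Y,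
            upd W i k (if d 2 then z₃ else add (X i j) (Y j k))) =
      ∑ X : Fin m → Fin m → Fin L, ∑ Y : Fin m → Fin m → Fin L,
      ∑ W : Fin m → Fin m → Fin (2 * L),
        dens d (a i j) (b j k) (c i k) (X i j) (Y j k) (W i k) * Ψ (X, Y, W) := by
    intro i j k
    -- the third side
    have h3 : ∀ (X' Y' : Fin m → Fin m → Fin L) (x' y' : Fin L),
        ∑ W : Fin m → Fin m → Fin (2 * L), ∑ z₃ : Fin (2 * L), ker (c i k) (add x' y') z₃ *
          Ψ (X', Y', upd W i k (if d 2 then z₃ else add x' y')) =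
        2 * L * ∑ W : Fin m → Fin m → Fin (2 * L), kerd (d 2) (c i k) (add x' y') (W i k) *
          Ψ (X', Y', W) := by
      intro X' Y' x' y'
      have := third (d 2) i k (c i k) (add x' y') fun W => Ψ (X', Y', W)
      rw [this, Fintype.card_fin]
      push_cast
      ring
    -- the second side
    have h2 : ∀ (X' : Fin m → Fin m → Fin L) (x' : Fin L),
        ∑ Y : Fin m → Fin m → Fin L, ∑ z₂ : Fin L, ker (b j k) (Y j k) z₂ *
          (2 * L * ∑ W : Fin m → Fin m → Fin (2 * L),
            kerd (d 2) (c i k) (add x' (Y j k)) (W i k) *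
            Ψ (X', if d 1 then upd Y j k z₂ else Y, W)) =
        ∑ Y : Fin m → Fin m → Fin L, ∑ y' : Fin L, kerd (d 1) (b j k) y' (Y j k) *
          (2 * L * ∑ W : Fin m → Fin m → Fin (2 * L),
            kerd (d 2) (c i k) (add x' y') (W i k) * Ψ (X', Y, W)) := by
      intro X' x'
      exact side_sum (d 1) j k (b j k) fun y' Y => 2 * L * ∑ W : Fin m → Fin m → Fin (2 * L),
            kerd (d 2) (c i k) (add x' y') (W i k) * Ψ (X', Y, W)
    -- the first side
    have h1 : ∑ X : Fin m → Fin m → Fin L, ∑ z₁ : Fin L, ker (a i j) (X i j) z₁ *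
          (∑ Y : Fin m → Fin m → Fin L, ∑ y' : Fin L, kerd (d 1) (b j k) y' (Y j k) *
          (2 * L * ∑ W : Fin m → Fin m → Fin (2 * L),
            kerd (d 2) (c i k) (add (X i j) y') (W i k) *
              Ψ (if d 0 then upd X i j z₁ else X, Y, W))) =
        ∑ X : Fin m → Fin m → Fin L, ∑ x' : Fin L, kerd (d 0) (a i j) x' (X i j) *
          (∑ Y : Fin m → Fin m → Fin L, ∑ y' : Fin L, kerd (d 1) (b j k) y' (Y j k) *
          (2 * L * ∑ W : Fin m → Fin m → Fin (2 * L),
            kerd (d 2) (c i k) (add x' y') (W i k) * Ψ (X, Y, W))) :=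
      side_sum (d 0) i j (a i j) fun x' X => ∑ Y : Fin m → Fin m → Fin L, ∑ y' : Fin L,
        kerd (d 1) (b j k) y' (Y j k) * (2 * L * ∑ W : Fin m → Fin m → Fin (2 * L),
            kerd (d 2) (c i k) (add x' y') (W i k) * Ψ (X, Y, W))
    calc ∑ X : Fin m → Fin m → Fin L, ∑ Y : Fin m → Fin m → Fin L,
      ∑ W : Fin m → Fin m → Fin (2 * L), ∑ z₁ : Fin L, ∑ z₂ : Fin L, ∑ z₃ : Fin (2 * L),
        ker (a i j) (X i j) z₁ * ker (b j k) (Y j k) z₂ *
          ker (c i k) (add (X i j) (Y j k)) z₃ *
          Ψ (if d 0 then upd X i j z₁ else X, if d 1 then upd Y j k z₂ else Y,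
            upd W i k (if d 2 then z₃ else add (X i j) (Y j k)))
        = ∑ X : Fin m → Fin m → Fin L, ∑ z₁ : Fin L, ker (a i j) (X i j) z₁ *
          (∑ Y : Fin m → Fin m → Fin L, ∑ z₂ : Fin L, ker (b j k) (Y j k) z₂ *
            (∑ W : Fin m → Fin m → Fin (2 * L), ∑ z₃ : Fin (2 * L),
              ker (c i k) (add (X i j) (Y j k)) z₃ *
              Ψ (if d 0 then upd X i j z₁ else X, if d 1 then upd Y j k z₂ else Y,
                upd W i k (if d 2 then z₃ else add (X i j) (Y j k))))) := by
          refine Finset.sum_congr rfl fun X _ => ?_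
          -- bring the sum over z₁ to the front
          have e1 : ∀ Y : Fin m → Fin m → Fin L, ∑ W : Fin m → Fin m → Fin (2 * L),
              ∑ z₁ : Fin L, ∑ z₂ : Fin L, ∑ z₃ : Fin (2 * L),
                ker (a i j) (X i j) z₁ * ker (b j k) (Y j k) z₂ *
                ker (c i k) (add (X i j) (Y j k)) z₃ *
                Ψ (if d 0 then upd X i j z₁ else X, if d 1 then upd Y j k z₂ else Y,
                  upd W i k (if d 2 then z₃ else add (X i j) (Y j k))) =
              ∑ z₁ : Fin L, ker (a i j) (X i j) z₁ * ∑ z₂ : Fin L, ker (b j k) (Y j k) z₂ *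
              (∑ W : Fin m → Fin m → Fin (2 * L), ∑ z₃ : Fin (2 * L),
                ker (c i k) (add (X i j) (Y j k)) z₃ *
                Ψ (if d 0 then upd X i j z₁ else X, if d 1 then upd Y j k z₂ else Y,
                  upd W i k (if d 2 then z₃ else add (X i j) (Y j k)))) := by
            intro Y
            rw [Finset.sum_comm]
            refine Finset.sum_congr rfl fun z₁ _ => ?_
            rw [Finset.sum_comm, Finset.mul_sum]
            refine Finset.sum_congr rfl fun z₂ _ => ?_
            rw [Finset.mul_sum, Finset.mul_sum]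
            refine Finset.sum_congr rfl fun W _ => ?_
            rw [Finset.mul_sum, Finset.mul_sum]
            refine Finset.sum_congr rfl fun z₃ _ => ?_
            ring
          rw [Finset.sum_congr rfl fun Y _ => e1 Y, Finset.sum_comm]
          refine Finset.sum_congr rfl fun z₁ _ => ?_
          rw [← Finset.mul_sum]
      _ = ∑ X : Fin m → Fin m → Fin L, ∑ z₁ : Fin L, ker (a i j) (X i j) z₁ *
          (∑ Y : Fin m → Fin m → Fin L, ∑ y' : Fin L, kerd (d 1) (b j k) y' (Y j k) *
          (2 * L * ∑ W : Fin m → Fin m → Fin (2 * L),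
            kerd (d 2) (c i k) (add (X i j) y') (W i k) *
              Ψ (if d 0 then upd X i j z₁ else X, Y, W))) := by
          refine Finset.sum_congr rfl fun X _ => Finset.sum_congr rfl fun z₁ _ => ?_
          rw [← h2]
          congr 1
          refine Finset.sum_congr rfl fun Y _ => Finset.sum_congr rfl fun z₂ _ => ?_
          rw [h3]
      _ = _ := by
          rw [h1]
          refine Finset.sum_congr rfl fun X _ => ?_
          have e1 : ∀ x' : Fin L, kerd (d 0) (a i j) x' (X i j) *
              (∑ Y : Fin m → Fin m → Fin L, ∑ y' : Fin L, kerd (d 1) (b j k) y' (Y j k) *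
              (2 * L * ∑ W : Fin m → Fin m → Fin (2 * L),
                kerd (d 2) (c i k) (add x' y') (W i k) * Ψ (X, Y, W))) =
              ∑ Y : Fin m → Fin m → Fin L, ∑ W : Fin m → Fin m → Fin (2 * L), ∑ y' : Fin L,
                2 * L * (kerd (d 0) (a i j) x' (X i j) * kerd (d 1) (b j k) y' (Y j k) *
                kerd (d 2) (c i k) (add x' y') (W i k)) * Ψ (X, Y, W) := by
            intro x'
            rw [Finset.mul_sum]
            refine Finset.sum_congr rfl fun Y _ => ?_
            rw [Finset.mul_sum, Finset.sum_comm]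
            refine Finset.sum_congr rfl fun y' _ => ?_
            rw [Finset.mul_sum, Finset.mul_sum, Finset.mul_sum]
            refine Finset.sum_congr rfl fun W _ => ?_
            ring
          rw [Finset.sum_congr rfl fun x' _ => e1 x', Finset.sum_comm]
          refine Finset.sum_congr rfl fun Y _ => ?_
          rw [Finset.sum_comm]
          refine Finset.sum_congr rfl fun W _ => ?_
          unfold Pool.Agent.Helper94.DG.dens
          rw [Finset.mul_sum, Finset.sum_mul]
          refine Finset.sum_congr rfl fun x' _ => ?_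
          rw [Finset.mul_sum, Finset.sum_mul]
  -- sum over the triangles
  have hleft : ∑ D : Data m L, mass a b c D * Ψ (corner d D) = (N * (m : ℝ) ^ 3)⁻¹ *
      ∑ i : Fin m, ∑ j : Fin m, ∑ k : Fin m, ∑ X : Fin m → Fin m → Fin L,
      ∑ Y : Fin m → Fin m → Fin L,
      ∑ W : Fin m → Fin m → Fin (2 * L), ∑ z₁ : Fin L, ∑ z₂ : Fin L, ∑ z₃ : Fin (2 * L),
        ker (a i j) (X i j) z₁ * ker (b j k) (Y j k) z₂ *
          ker (c i k) (add (X i j) (Y j k)) z₃ *
          Ψ (if d 0 then upd X i j z₁ else X, if d 1 then upd Y j k z₂ else Y,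
            upd W i k (if d 2 then z₃ else add (X i j) (Y j k))) := by
    have e1 : ∑ D : Data m L, mass a b c D * Ψ (corner d D) =
        ∑ T : Fin m × Fin m × Fin m, ∑ S : Arr m L, ∑ z : Fin L × Fin L × Fin (2 * L),
          mass a b c (S, T, z) * Ψ (corner d (S, T, z)) := by
      rw [Fintype.sum_prod_type, Finset.sum_comm' (s := univ) (t := fun _ => univ) (t' := univ)
        (s' := fun _ => univ) (by simp)]
      rw [Fintype.sum_prod_type]
      refine Finset.sum_congr rfl fun T _ => ?_
      rw [Finset.sum_comm]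
    rw [e1]
    simp only [Fintype.sum_prod_type, Finset.mul_sum]
    refine Finset.sum_congr rfl fun i _ => Finset.sum_congr rfl fun j _ =>
      Finset.sum_congr rfl fun k _ => Finset.sum_congr rfl fun X _ =>
      Finset.sum_congr rfl fun Y _ => Finset.sum_congr rfl fun W _ =>
      Finset.sum_congr rfl fun z₁ _ => Finset.sum_congr rfl fun z₂ _ =>
      Finset.sum_congr rfl fun z₃ _ => ?_
    show (N * (m : ℝ) ^ 3)⁻¹ * (ker (a i j) (X i j) z₁ * ker (b j k) (Y j k) z₂ *
      ker (c i k) (add (X i j) (Y j k)) z₃) * Ψ _ = _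
    rw [mul_assoc]
    rfl
  have hright : ∑ S : Arr m L, densF d a b c S * Ψ S = ((m : ℝ) ^ 3)⁻¹ *
      ∑ i : Fin m, ∑ j : Fin m, ∑ k : Fin m, ∑ X : Fin m → Fin m → Fin L,
      ∑ Y : Fin m → Fin m → Fin L, ∑ W : Fin m → Fin m → Fin (2 * L),
        dens d (a i j) (b j k) (c i k) (X i j) (Y j k) (W i k) * Ψ (X, Y, W) := by
    have e1 : ∀ S : Arr m L, densF d a b c S * Ψ S = ∑ i : Fin m, ∑ j : Fin m, ∑ k : Fin m,
        ((m : ℝ) ^ 3)⁻¹ *
          (dens d (a i j) (b j k) (c i k) (S.1 i j) (S.2.1 j k) (S.2.2 i k) * Ψ S) := by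
      intro S
      unfold densF
      rw [mul_assoc, Finset.sum_mul, Finset.mul_sum]
      refine Finset.sum_congr rfl fun i _ => ?_
      rw [Finset.sum_mul, Finset.mul_sum]
      refine Finset.sum_congr rfl fun j _ => ?_
      rw [Finset.sum_mul, Finset.mul_sum]
    rw [Finset.sum_congr rfl fun S _ => e1 S, Finset.sum_comm, Finset.mul_sum]
    refine Finset.sum_congr rfl fun i _ => ?_
    rw [Finset.sum_comm, Finset.mul_sum]
    refine Finset.sum_congr rfl fun j _ => ?_
    rw [Finset.sum_comm, Finset.mul_sum]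
    refine Finset.sum_congr rfl fun k _ => ?_
    rw [← Finset.mul_sum]
    simp only [Fintype.sum_prod_type]
  rw [hleft, hright]
  simp only [key]
  rw [mul_inv]
  ring

/-- The planted triangle is uniform. -/
theorem marginal {m L : ℕ} (hL : 0 < L) (a b : Fin m → Fin m → Fin L → ℕ)
    (c : Fin m → Fin m → Fin (2 * L) → ℕ) (g : Fin m × Fin m × Fin m → ℝ) :
    ∑ D : Data m L, mass a b c D * g D.2.1 = (∑ T, g T) / (m : ℝ) ^ 3 := by
  have : Nonempty (Fin L) := ⟨⟨0, hL⟩⟩
  have : Nonempty (Fin (2 * L)) := ⟨⟨0, by omega⟩⟩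
  have hN : (Fintype.card (Arr m L) : ℝ) ≠ 0 := by
    exact_mod_cast Fintype.card_ne_zero
  have e1 : ∑ D : Data m L, mass a b c D * g D.2.1 =
      ∑ T : Fin m × Fin m × Fin m, ∑ S : Arr m L, ∑ z : Fin L × Fin L × Fin (2 * L),
        mass a b c (S, T, z) * g T := by
    rw [Fintype.sum_prod_type, Finset.sum_comm' (s := univ) (t := fun _ => univ) (t' := univ)
      (s' := fun _ => univ) (by simp)]
    rw [Fintype.sum_prod_type]
    refine Finset.sum_congr rfl fun T _ => ?_
    rw [Finset.sum_comm]
  rw [e1, Finset.sum_div]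
  refine Finset.sum_congr rfl fun T _ => ?_
  obtain ⟨i, j, k⟩ := T
  have e2 : ∀ S : Arr m L, ∑ z : Fin L × Fin L × Fin (2 * L),
      mass a b c (S, (i, j, k), z) * g (i, j, k) =
      ((Fintype.card (Arr m L) : ℝ) * (m : ℝ) ^ 3)⁻¹ * g (i, j, k) := by
    intro S
    rw [← Finset.sum_mul]
    congr 1
    unfold mass
    simp only [Fintype.sum_prod_type, ← Finset.mul_sum, ker_sum', mul_one]
  rw [Finset.sum_congr rfl fun S _ => e2 S, Finset.sum_const, Finset.card_univ, nsmul_eq_mul,
    mul_inv]
  field_simp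

end Pool.Agent.Helper14.DG
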