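import Pool.Agent.Helper94.DG.Defs2

/-!
The joint law of the planted triangle and of a corner.
-/

set_option autoImplicit false

open Finset

namespace Pool.Agent.Helper14.DG

open Pool.Agent.Helper94.DG

private lemma ker_sum' {α : Type} [Fintype α] (δ : α → ℕ) (x : α) : ∑ x', ker δ x x' = 1 := by
  classical
  unfold ker
  rw [← Finset.sum_filter, Finset.sum_const, nsmul_eq_mul]
  have h1 : (univ.filter fun z => δ x = δ z) = univ.filter fun z => δ z = δ x := by
    ext z
    simp only [Finset.mem_filter, Finset.mem_univ, true_and]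
    exact eq_comm
  have h2 : (univ.filter fun z => δ z = δ x).Nonempty :=
    ⟨x, by simp only [Finset.mem_filter, Finset.mem_univ, true_and]⟩
  have h3 : ((univ.filter fun z => δ z = δ x).card : ℝ) ≠ 0 := by
    exact_mod_cast h2.card_pos.ne'
  convert mul_inv_cancel₀ h3 using 2
  rw [h1]

private lemma upd_same {m : ℕ} {α : Type} (X : Fin m → Fin m → α) (i j : Fin m) (z : α) :
    upd X i j z i j = z := by
  unfold upd
  rw [if_pos ⟨rfl, rfl⟩]

private lemma upd_upd {m : ℕ} {α : Type} (X : Fin m → Fin m → α) (i j : Fin m) (z : α) :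
    upd (upd X i j z) i j (X i j) = X := by
  funext u v
  unfold upd
  split_ifs with h
  · rw [h.1, h.2]
  · rfl

/-- The swap. -/
private lemma swap {m : ℕ} {α : Type} [Fintype α] (i j : Fin m)
    (f : (Fin m → Fin m → α) → α → ℝ) :
    ∑ X, ∑ z, f (upd X i j z) (X i j) = ∑ X, ∑ z, f X z := by
  rw [← Fintype.sum_prod_type', ← Fintype.sum_prod_type']
  let e : (Fin m → Fin m → α) × α ≃ (Fin m → Fin m → α) × α :=
    { toFun := fun p => (upd p.1 i j p.2, p.1 i j)
      invFun := fun p => (upd p.1 i j p.2, p.1 i j)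
      left_inv := fun p => Prod.ext (upd_upd p.1 i j p.2) (upd_same p.1 i j p.2)
      right_inv := fun p => Prod.ext (upd_upd p.1 i j p.2) (upd_same p.1 i j p.2) }
  exact Fintype.sum_equiv e _ _ fun p => rfl

/-- One side: the value that is drawn in the class is put in the array, or not. -/
private lemma side_sum {m : ℕ} {α : Type} [Fintype α] [DecidableEq α] (d : Bool) (i j : Fin m)
    (δ : α → ℕ) (G : α → (Fin m → Fin m → α) → ℝ) :
    ∑ X : Fin m → Fin m → α, ∑ z, ker δ (X i j) z * G (X i j) (if d then upd X i j z else X) =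
      ∑ X : Fin m → Fin m → α, ∑ x', kerd d δ x' (X i j) * G x' X := by
  cases d
  · refine Finset.sum_congr rfl fun X _ => ?_
    simp only [Bool.false_eq_true, if_false, kerd]
    rw [← Finset.sum_mul, ker_sum', one_mul]
    have h1 : ∀ x', (if x' = X i j then (1 : ℝ) else 0) * G x' X =
        if x' = X i j then G x' X else 0 := fun x' => by
      split_ifs
      · rw [one_mul]
      · rw [zero_mul]
    rw [Finset.sum_congr rfl fun x' _ => h1 x', Finset.sum_ite_eq', if_pos (Finset.mem_univ _)]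
  · simp only [if_true, kerd]
    have h1 := swap i j fun (X : Fin m → Fin m → α) x' => ker δ x' (X i j) * G x' X
    rw [← h1]
    refine Finset.sum_congr rfl fun X _ => Finset.sum_congr rfl fun z _ => ?_
    rw [upd_same]

/-- A value is put in the array. -/
private lemma put {m : ℕ} {α : Type} [Fintype α] [DecidableEq α] (i j : Fin m) (z₀ : α)
    (Φ : (Fin m → Fin m → α) → ℝ) :
    ∑ X : Fin m → Fin m → α, Φ (upd X i j z₀) =
      Fintype.card α * ∑ X : Fin m → Fin m → α, (if z₀ = X i j then 1 else 0) * Φ X := by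
  have h1 := swap i j fun (X : Fin m → Fin m → α) (_ : α) => (if z₀ = X i j then 1 else 0) * Φ X
  have h2 : ∀ X : Fin m → Fin m → α, ∑ z : α, (if z₀ = upd X i j z i j then 1 else 0) *
      Φ (upd X i j z) = Φ (upd X i j z₀) := by
    intro X
    have h3 : ∀ z : α, (if z₀ = upd X i j z i j then (1 : ℝ) else 0) * Φ (upd X i j z) =
        if z₀ = z then Φ (upd X i j z) else 0 := fun z => by
      rw [upd_same]
      split_ifs
      · rw [one_mul]
      · rw [zero_mul]
    rw [Finset.sum_congr rfl fun z _ => h3 z, Finset.sum_ite_eq, if_pos (Finset.mem_univ _)]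
  have h4 : ∑ X : Fin m → Fin m → α, ∑ z : α, (if z₀ = upd X i j z i j then (1 : ℝ) else 0) *
      Φ (upd X i j z) = ∑ X : Fin m → Fin m → α, Φ (upd X i j z₀) :=
    Finset.sum_congr rfl fun X _ => h2 X
  rw [← h4, h1, Finset.mul_sum]
  refine Finset.sum_congr rfl fun X _ => ?_
  rw [Finset.sum_const, Finset.card_univ, nsmul_eq_mul]

/-- The third side. -/
private lemma third {m : ℕ} {α : Type} [Fintype α] [DecidableEq α] (d : Bool) (i j : Fin m)
    (δ : α → ℕ) (s : α) (Φ : (Fin m → Fin m → α) → ℝ) :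
    ∑ X : Fin m → Fin m → α, ∑ z, ker δ s z * Φ (upd X i j (if d then z else s)) =
      Fintype.card α * ∑ X : Fin m → Fin m → α, kerd d δ s (X i j) * Φ X := by
  cases d
  · simp only [Bool.false_eq_true, if_false, kerd]
    rw [← put]
    refine Finset.sum_congr rfl fun X _ => ?_
    rw [← Finset.sum_mul, ker_sum', one_mul]
  · simp only [if_true, kerd]
    rw [Finset.sum_comm]
    simp only [← Finset.mul_sum, put]
    rw [Finset.mul_sum]
    have h1 : ∀ z : α, ker δ s z * (Fintype.card α * ∑ X : Fin m → Fin m → α,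
        (if z = X i j then 1 else 0) * Φ X) = ∑ X : Fin m → Fin m → α,
        Fintype.card α * ((if z = X i j then ker δ s z else 0) * Φ X) := by
      intro z
      rw [Finset.mul_sum, Finset.mul_sum]
      refine Finset.sum_congr rfl fun X _ => ?_
      split_ifs <;> ring
    rw [Finset.sum_congr rfl fun z _ => h1 z, Finset.sum_comm]
    refine Finset.sum_congr rfl fun X _ => ?_
    rw [← Finset.mul_sum, ← Finset.sum_mul, Finset.sum_ite_eq', if_pos (Finset.mem_univ _)]

/-- One triangle. -/
private lemma one {m L : ℕ} (a b : Fin m → Fin m → Fin L → ℕ)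
    (c : Fin m → Fin m → Fin (2 * L) → ℕ) (d : Fin 3 → Bool) (Ψ : Arr m L → ℝ) (i j k : Fin m) :
    ∑ X : Fin m → Fin m → Fin L, ∑ Y : Fin m → Fin m → Fin L,
    ∑ W : Fin m → Fin m → Fin (2 * L), ∑ z₁ : Fin L, ∑ z₂ : Fin L, ∑ z₃ : Fin (2 * L),
      ker (a i j) (X i j) z₁ * ker (b j k) (Y j k) z₂ *
        ker (c i k) (add (X i j) (Y j k)) z₃ *
        Ψ (if d 0 then upd X i j z₁ else X, if d 1 then upd Y j k z₂ else Y,
          upd W i k (if d 2 then z₃ else add (X i j) (Y j k))) =
    ∑ X : Fin m → Fin m → Fin L, ∑ Y : Fin m → Fin m → Fin L,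
    ∑ W : Fin m → Fin m → Fin (2 * L),
      dens d (a i j) (b j k) (c i k) (X i j) (Y j k) (W i k) * Ψ (X, Y, W) := by
  -- the third side
  have h3 : ∀ (X' Y' : Fin m → Fin m → Fin L) (x' y' : Fin L),
      ∑ W : Fin m → Fin m → Fin (2 * L), ∑ z₃ : Fin (2 * L), ker (c i k) (add x' y') z₃ *
        Ψ (X', Y', upd W i k (if d 2 then z₃ else add x' y')) =
      2 * L * ∑ W : Fin m → Fin m → Fin (2 * L), kerd (d 2) (c i k) (add x' y') (W i k) *
        Ψ (X', Y', W) := by
    intro X' Y' x' y'
    have := third (d 2) i k (c i k) (add x' y') fun W => Ψ (X', Y', W)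
    rw [this, Fintype.card_fin]
    push_cast
    ring
  -- the second side
  have h2 : ∀ (X' : Fin m → Fin m → Fin L) (x' : Fin L),
      ∑ Y : Fin m → Fin m → Fin L, ∑ z₂ : Fin L, ker (b j k) (Y j k) z₂ *
        (2 * L * ∑ W : Fin m → Fin m → Fin (2 * L),
          kerd (d 2) (c i k) (add x' (Y j k)) (W i k) *
          Ψ (X', if d 1 then upd Y j k z₂ else Y, W)) =
      ∑ Y : Fin m → Fin m → Fin L, ∑ y' : Fin L, kerd (d 1) (b j k) y' (Y j k) *
        (2 * L * ∑ W : Fin m → Fin m → Fin (2 * L),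
          kerd (d 2) (c i k) (add x' y') (W i k) * Ψ (X', Y, W)) := by
    intro X' x'
    exact side_sum (d 1) j k (b j k) fun y' Y => 2 * L * ∑ W : Fin m → Fin m → Fin (2 * L),
          kerd (d 2) (c i k) (add x' y') (W i k) * Ψ (X', Y, W)
  -- the first side
  have h1 : ∑ X : Fin m → Fin m → Fin L, ∑ z₁ : Fin L, ker (a i j) (X i j) z₁ *
        (∑ Y : Fin m → Fin m → Fin L, ∑ y' : Fin L, kerd (d 1) (b j k) y' (Y j k) *
        (2 * L * ∑ W : Fin m → Fin m → Fin (2 * L),
          kerd (d 2) (c i k) (add (X i j) y') (W i k) *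
            Ψ (if d 0 then upd X i j z₁ else X, Y, W))) =
      ∑ X : Fin m → Fin m → Fin L, ∑ x' : Fin L, kerd (d 0) (a i j) x' (X i j) *
        (∑ Y : Fin m → Fin m → Fin L, ∑ y' : Fin L, kerd (d 1) (b j k) y' (Y j k) *
        (2 * L * ∑ W : Fin m → Fin m → Fin (2 * L),
          kerd (d 2) (c i k) (add x' y') (W i k) * Ψ (X, Y, W))) :=
    side_sum (d 0) i j (a i j) fun x' X => ∑ Y : Fin m → Fin m → Fin L, ∑ y' : Fin L,
      kerd (d 1) (b j k) y' (Y j k) * (2 * L * ∑ W : Fin m → Fin m → Fin (2 * L),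
          kerd (d 2) (c i k) (add x' y') (W i k) * Ψ (X, Y, W))
  calc ∑ X : Fin m → Fin m → Fin L, ∑ Y : Fin m → Fin m → Fin L,
    ∑ W : Fin m → Fin m → Fin (2 * L), ∑ z₁ : Fin L, ∑ z₂ : Fin L, ∑ z₃ : Fin (2 * L),
      ker (a i j) (X i j) z₁ * ker (b j k) (Y j k) z₂ *
        ker (c i k) (add (X i j) (Y j k)) z₃ *
        Ψ (if d 0 then upd X i j z₁ else X, if d 1 then upd Y j k z₂ else Y,
          upd W i k (if d 2 then z₃ else add (X i j) (Y j k)))
      = ∑ X : Fin m → Fin m → Fin L, ∑ z₁ : Fin L, ker (a i j) (X i j) z₁ *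
        (∑ Y : Fin m → Fin m → Fin L, ∑ z₂ : Fin L, ker (b j k) (Y j k) z₂ *
          (∑ W : Fin m → Fin m → Fin (2 * L), ∑ z₃ : Fin (2 * L),
            ker (c i k) (add (X i j) (Y j k)) z₃ *
            Ψ (if d 0 then upd X i j z₁ else X, if d 1 then upd Y j k z₂ else Y,
              upd W i k (if d 2 then z₃ else add (X i j) (Y j k))))) := by
        refine Finset.sum_congr rfl fun X _ => ?_
        -- bring the sum over z₁ to the front
        have e1 : ∀ Y : Fin m → Fin m → Fin L, ∑ W : Fin m → Fin m → Fin (2 * L),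
            ∑ z₁ : Fin L, ∑ z₂ : Fin L, ∑ z₃ : Fin (2 * L),
              ker (a i j) (X i j) z₁ * ker (b j k) (Y j k) z₂ *
              ker (c i k) (add (X i j) (Y j k)) z₃ *
              Ψ (if d 0 then upd X i j z₁ else X, if d 1 then upd Y j k z₂ else Y,
                upd W i k (if d 2 then z₃ else add (X i j) (Y j k))) =
            ∑ z₁ : Fin L, ker (a i j) (X i j) z₁ * ∑ z₂ : Fin L, ker (b j k) (Y j k) z₂ *
            (∑ W : Fin m → Fin m → Fin (2 * L), ∑ z₃ : Fin (2 * L),
              ker (c i k) (add (X i j) (Y j k)) z₃ *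
              Ψ (if d 0 then upd X i j z₁ else X, if d 1 then upd Y j k z₂ else Y,
                upd W i k (if d 2 then z₃ else add (X i j) (Y j k)))) := by
          intro Y
          rw [Finset.sum_comm]
          refine Finset.sum_congr rfl fun z₁ _ => ?_
          rw [Finset.sum_comm, Finset.mul_sum]
          refine Finset.sum_congr rfl fun z₂ _ => ?_
          rw [Finset.mul_sum, Finset.mul_sum]
          refine Finset.sum_congr rfl fun W _ => ?_
          rw [Finset.mul_sum, Finset.mul_sum]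
          refine Finset.sum_congr rfl fun z₃ _ => ?_
          ring
        rw [Finset.sum_congr rfl fun Y _ => e1 Y, Finset.sum_comm]
        refine Finset.sum_congr rfl fun z₁ _ => ?_
        rw [← Finset.mul_sum]
    _ = ∑ X : Fin m → Fin m → Fin L, ∑ z₁ : Fin L, ker (a i j) (X i j) z₁ *
        (∑ Y : Fin m → Fin m → Fin L, ∑ y' : Fin L, kerd (d 1) (b j k) y' (Y j k) *
        (2 * L * ∑ W : Fin m → Fin m → Fin (2 * L),
          kerd (d 2) (c i k) (add (X i j) y') (W i k) *
            Ψ (if d 0 then upd X i j z₁ else X, Y, W))) := by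
        refine Finset.sum_congr rfl fun X _ => Finset.sum_congr rfl fun z₁ _ => ?_
        rw [← h2]
        congr 1
        refine Finset.sum_congr rfl fun Y _ => Finset.sum_congr rfl fun z₂ _ => ?_
        rw [h3]
    _ = _ := by
        rw [h1]
        refine Finset.sum_congr rfl fun X _ => ?_
        have e1 : ∀ x' : Fin L, kerd (d 0) (a i j) x' (X i j) *
            (∑ Y : Fin m → Fin m → Fin L, ∑ y' : Fin L, kerd (d 1) (b j k) y' (Y j k) *
            (2 * L * ∑ W : Fin m → Fin m → Fin (2 * L),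
              kerd (d 2) (c i k) (add x' y') (W i k) * Ψ (X, Y, W))) =
            ∑ Y : Fin m → Fin m → Fin L, ∑ W : Fin m → Fin m → Fin (2 * L), ∑ y' : Fin L,
              2 * L * (kerd (d 0) (a i j) x' (X i j) * kerd (d 1) (b j k) y' (Y j k) *
              kerd (d 2) (c i k) (add x' y') (W i k)) * Ψ (X, Y, W) := by
          intro x'
          rw [Finset.mul_sum]
          refine Finset.sum_congr rfl fun Y _ => ?_
          rw [Finset.mul_sum, Finset.sum_comm]
          refine Finset.sum_congr rfl fun y' _ => ?_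
          rw [Finset.mul_sum, Finset.mul_sum, Finset.mul_sum]
          refine Finset.sum_congr rfl fun W _ => ?_
          ring
        rw [Finset.sum_congr rfl fun x' _ => e1 x', Finset.sum_comm]
        refine Finset.sum_congr rfl fun Y _ => ?_
        rw [Finset.sum_comm]
        refine Finset.sum_congr rfl fun W _ => ?_
        unfold Pool.Agent.Helper94.DG.dens
        rw [Finset.mul_sum, Finset.sum_mul]
        refine Finset.sum_congr rfl fun x' _ => ?_
        rw [Finset.mul_sum, Finset.sum_mul]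

set_option linter.unusedVariables false in
/-- The joint law of the planted triangle and of a corner. -/
theorem law1 {m L : ℕ} (hL : 0 < L) (a b : Fin m → Fin m → Fin L → ℕ)
    (c : Fin m → Fin m → Fin (2 * L) → ℕ) (d : Fin 3 → Bool) (Ψ : Tri m → Arr m L → ℝ) :
    ∑ D : Data m L, mass a b c D * Ψ D.2.1 (corner d D) =
      (∑ T : Tri m, ∑ S : Arr m L, densT d a b c T S * Ψ T S) /
        (Fintype.card (Arr m L) * (m : ℝ) ^ 3) := by
  set N : ℝ := (Fintype.card (Arr m L) : ℝ) with hN
  have hleft : ∑ D : Data m L, mass a b c D * Ψ D.2.1 (corner d D) = (N * (m : ℝ) ^ 3)⁻¹ *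
      ∑ i : Fin m, ∑ j : Fin m, ∑ k : Fin m, ∑ X : Fin m → Fin m → Fin L,
      ∑ Y : Fin m → Fin m → Fin L,
      ∑ W : Fin m → Fin m → Fin (2 * L), ∑ z₁ : Fin L, ∑ z₂ : Fin L, ∑ z₃ : Fin (2 * L),
        ker (a i j) (X i j) z₁ * ker (b j k) (Y j k) z₂ *
          ker (c i k) (add (X i j) (Y j k)) z₃ *
          Ψ (i, j, k) (if d 0 then upd X i j z₁ else X, if d 1 then upd Y j k z₂ else Y,
            upd W i k (if d 2 then z₃ else add (X i j) (Y j k))) := by
    have e1 : ∑ D : Data m L, mass a b c D * Ψ D.2.1 (corner d D) =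
        ∑ T : Fin m × Fin m × Fin m, ∑ S : Arr m L, ∑ z : Fin L × Fin L × Fin (2 * L),
          mass a b c (S, T, z) * Ψ T (corner d (S, T, z)) := by
      rw [Fintype.sum_prod_type, Finset.sum_comm' (s := univ) (t := fun _ => univ) (t' := univ)
        (s' := fun _ => univ) (by simp)]
      rw [Fintype.sum_prod_type]
      refine Finset.sum_congr rfl fun T _ => ?_
      rw [Finset.sum_comm]
    rw [e1]
    simp only [Fintype.sum_prod_type, Finset.mul_sum]
    refine Finset.sum_congr rfl fun i _ => Finset.sum_congr rfl fun j _ =>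
      Finset.sum_congr rfl fun k _ => Finset.sum_congr rfl fun X _ =>
      Finset.sum_congr rfl fun Y _ => Finset.sum_congr rfl fun W _ =>
      Finset.sum_congr rfl fun z₁ _ => Finset.sum_congr rfl fun z₂ _ =>
      Finset.sum_congr rfl fun z₃ _ => ?_
    show (N * (m : ℝ) ^ 3)⁻¹ * (ker (a i j) (X i j) z₁ * ker (b j k) (Y j k) z₂ *
      ker (c i k) (add (X i j) (Y j k)) z₃) * Ψ _ _ = _
    rw [mul_assoc]
    rfl
  have hright : ∑ T : Tri m, ∑ S : Arr m L, densT d a b c T S * Ψ T S =
      ∑ i : Fin m, ∑ j : Fin m, ∑ k : Fin m, ∑ X : Fin m → Fin m → Fin L,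
      ∑ Y : Fin m → Fin m → Fin L, ∑ W : Fin m → Fin m → Fin (2 * L),
        dens d (a i j) (b j k) (c i k) (X i j) (Y j k) (W i k) * Ψ (i, j, k) (X, Y, W) := by
    simp only [Fintype.sum_prod_type]
    rfl
  rw [hleft, hright]
  have h1 : ∀ i j k : Fin m, _ := fun i j k => one a b c d (Ψ (i, j, k)) i j k
  simp only [h1]
  rw [div_eq_inv_mul]

end Pool.Agent.Helper14.DG
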