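import Pool.Agent.Helper28.DG.Upper

/-!
# The upper end, with one digest for all the cells
-/

set_option autoImplicit false

open Finset

namespace Pool.Agent.Helper14.DG

open Pool.Agent.Helper22.ETModel Pool.Agent.Helper8.VT Pool.Agent.Helper8.UV
open Pool.Agent.Helper53.TC5 Pool.Agent.Helper94.DG

theorem upper_digest1 (n : ℕ) (hn : 1 ≤ n) : ∃ (Ω : Type) (_ : Fintype Ω) (_ : Nonempty Ω)
    (δ : Ω → ℤ → Fin (n ^ 3)) (H : Ω → Inst n → ℝ),
    (∀ ω, PriceG (K := fun _ _ => n ^ 3) (fun _ _ _ => δ ω) (H ω) 0) ∧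
    ∀ I : Inst n, I.Valid → Tripartite I → Decides (fun ω (_ : Fin 1) => H ω) I := by
  classical
  refine ⟨Pool.Agent.Helper28.DG.Rg n → Fin (n ^ 3), inferInstance,
    ⟨fun _ => ⟨0, pow_pos hn 3⟩⟩,
    fun ω => Pool.Agent.Helper28.DG.dg hn ω, fun ω => Pool.Agent.Helper28.DG.vote hn ω,
    fun ω => Pool.Agent.Helper28.DG.vote_price hn ω, ?_⟩
  intro I hI hT
  exact Pool.Agent.Helper28.DG.vote_decides hn I hI hT

end Pool.Agent.Helper14.DG
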